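import Pool.Agent.helper29.NS.SpecC
import Pool.Agent.helper31.NS.SL

set_option autoImplicit false

namespace NS

open MeasureTheory Filter Topology Set

theorem CV_compact (R : ℝ) : IsCompact (Circ R) := by
  apply Metric.isCompact_of_isClosed_isBounded
  · have : Circ R = (fun q : ℝ × ℝ => q.1 ^ 2 + q.2 ^ 2) ⁻¹' {R ^ 2} := rfl
    rw [this]
    exact isClosed_singleton.preimage (by fun_prop)
  · rw [Metric.isBounded_iff_subset_closedBall (0 : ℝ × ℝ)]
    refine ⟨|R|, ?_⟩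
    intro q hq
    have hq' : q.1 ^ 2 + q.2 ^ 2 = R ^ 2 := hq
    rw [mem_closedBall_zero_iff, Prod.norm_def, Real.norm_eq_abs, Real.norm_eq_abs]
    apply max_le
    · exact abs_le_abs_of_sq_le_sq (by nlinarith [sq_nonneg q.2])
    · exact abs_le_abs_of_sq_le_sq (by nlinarith [sq_nonneg q.1])
where
  abs_le_abs_of_sq_le_sq {x y : ℝ} (h : x ^ 2 ≤ y ^ 2) : |x| ≤ |y| := by
    rwa [← sq_le_sq]

/-- near the circle there is a point of the circle -/
theorem CV_near (R δ : ℝ) (hR : 0 < R) (hδ : 0 < δ) (hδR : δ < R) (q : ℝ × ℝ)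
    (hq : q ∈ Ring (R - δ) R) : ∃ p ∈ Circ R, dist q p < δ := by
  obtain ⟨h1, h2⟩ := hq
  set ρ : ℝ := Real.sqrt (q.1 ^ 2 + q.2 ^ 2) with hρ
  have hs : ρ ^ 2 = q.1 ^ 2 + q.2 ^ 2 := Real.sq_sqrt (by positivity)
  have hρ0 : 0 ≤ ρ := Real.sqrt_nonneg _
  have hρ1 : R - δ < ρ := by
    rw [← hs] at h1
    exact lt_of_pow_lt_pow_left₀ 2 hρ0 h1
  have hρ2 : ρ < R := by
    rw [← hs] at h2
    exact lt_of_pow_lt_pow_left₀ 2 hR.le h2
  have hρpos : 0 < ρ := by linarith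
  refine ⟨(R / ρ * q.1, R / ρ * q.2), ?_, ?_⟩
  · show (R / ρ * q.1) ^ 2 + (R / ρ * q.2) ^ 2 = R ^ 2
    have : (R / ρ * q.1) ^ 2 + (R / ρ * q.2) ^ 2 = R ^ 2 / ρ ^ 2 * (q.1 ^ 2 + q.2 ^ 2) := by
      field_simp
    rw [this, ← hs]
    field_simp
  · have hb : ∀ x : ℝ, x ^ 2 ≤ ρ ^ 2 → |x - R / ρ * x| < δ := by
      intro x hx
      have hx' : |x| ≤ ρ := by
        have := sq_le_sq.mp hx
        rwa [abs_of_nonneg hρ0] at this
      have e : x - R / ρ * x = -((R - ρ) * (x / ρ)) := by field_simp; ring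
      rw [e, abs_neg, abs_mul, abs_div, abs_of_pos hρpos, abs_of_pos (by linarith : 0 < R - ρ)]
      have h3 : |x| / ρ ≤ 1 := by rw [div_le_one hρpos]; exact hx'
      have h4 : 0 ≤ |x| / ρ := by positivity
      nlinarith
    rw [Prod.dist_eq, Real.dist_eq, Real.dist_eq]
    apply max_lt
    · exact hb q.1 (by nlinarith [sq_nonneg q.2])
    · exact hb q.2 (by nlinarith [sq_nonneg q.1])

theorem CV (hAL : AL_stmt) (hKF : KF_stmt) (hCN : CN_stmt) : CV_stmt := by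
  intro Ω ν R t1 G a1 b1 a2 b2 a b m n hCD t hw
  have hR := hCD.oc.pos
  have hDM := hCD.dmm
  obtain ⟨hw1, -⟩ := hCN Ω ν R t1 G a1 b1 a2 b2 a b m n hCD
  have h32 : (2 : WithTop ℕ∞) ≤ 3 := by norm_num
  have hpr : ContDiff ℝ 2 (fun q : ℝ × ℝ => ((t, q) : ℝ × ℝ × ℝ)) := by fun_prop
  have hda : Differentiable ℝ a := hDM.ca.differentiable (by norm_num)
  have hdb : Differentiable ℝ b := hDM.cb.differentiable (by norm_num)
  have hdm : Differentiable ℝ m := hDM.cm.differentiable (by norm_num)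
  have hdn : Differentiable ℝ n := hDM.cn.differentiable (by norm_num)
  have key : ∀ c ∈ Circ R, ∃ V ∈ 𝓝 c, ∀ q ∈ Ω ∩ V, m (t, q) = 0 ∧ n (t, q) = 0 := by
    intro c hc
    have hcv := ((hKF Ω R hCD.op hCD.oc).2 c hc).2
    apply hAL Ω c hCD.op hcv (fun q => a (t, q)) (fun q => b (t, q)) (fun q => m (t, q))
      (fun q => n (t, q)) ((hDM.ca.of_le h32).comp hpr) ((hDM.cb.of_le h32).comp hpr)
      ((hDM.cm.of_le h32).comp hpr) ((hDM.cn.of_le h32).comp hpr)
    · intro q hq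
      rw [(SL a t q (hda _)).1, (SL a t q (hda _)).2.1, (SL b t q (hdb _)).1,
        (SL b t q (hdb _)).2.1, (SL m t q (hdm _)).1, (SL m t q (hdm _)).2.1,
        (SL n t q (hdn _)).1, (SL n t q (hdn _)).2.1]
      exact ⟨hDM.da t q hq, hDM.dm t q hq, hDM.tr t q hq⟩
    · intro q hq
      exact hDM.bc t q hq
    · rw [(SL b t c (hdb _)).1, (SL a t c (hda _)).2.1]
      have h1 := hw1 t c hc
      have h2 : vort a b (t, c) = dx b (t, c) - dy a (t, c) := rfl
      rw [← h2, h1]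
      exact hw
  -- an open set containing the circle
  set U : Set (ℝ × ℝ) := interior {q | q ∈ Ω → m (t, q) = 0 ∧ n (t, q) = 0} with hU
  have hUo : IsOpen U := isOpen_interior
  have hCU : Circ R ⊆ U := by
    intro c hc
    obtain ⟨V, hV, hV2⟩ := key c hc
    rw [hU, mem_interior_iff_mem_nhds]
    filter_upwards [hV] with q hq hqΩ
    exact hV2 q ⟨hqΩ, hq⟩
  obtain ⟨δ, hδ, hthick⟩ := (CV_compact R).exists_thickening_subset_open hUo hCU
  obtain ⟨r, hr0, hrR, hrΩ⟩ := hCD.oc.ring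
  set ε : ℝ := min δ (min (R - r) (R / 2)) with hε
  have hε0 : 0 < ε := lt_min hδ (lt_min (by linarith) (by linarith))
  have hεδ : ε ≤ δ := min_le_left _ _
  have hεr : ε ≤ R - r := (min_le_right _ _).trans (min_le_left _ _)
  have hεR : ε < R := lt_of_le_of_lt ((min_le_right _ _).trans (min_le_right _ _)) (by linarith)
  have hsub : Ring (R - ε) R ⊆ Ω := by
    intro q hq
    apply hrΩ
    refine ⟨?_, hq.2⟩
    have h1 := hq.1
    nlinarith
  refine ⟨ε, hε0, hεR, hsub, ?_⟩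
  intro q hq
  obtain ⟨p, hp, hd⟩ := CV_near R ε hR hε0 hεR q hq
  have hqU : q ∈ U := hthick (Metric.mem_thickening_iff.mpr ⟨p, hp, lt_of_lt_of_le hd hεδ⟩)
  exact interior_subset hqU (hsub hq)

end NS
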