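import Pool.Agent.helper29.NS.SpecC

set_option autoImplicit false

namespace NS

open MeasureTheory Filter Topology Set

theorem EH (hEE : EE_stmt) (hEV : EV_stmt) (hRR : RR_stmt) (hYI : YI_stmt) (hKF : KF_stmt)
    (hKR : KR_stmt) (hRX : RX_stmt) : EH_stmt := by
  intro Ω ν R t1 G a1 b1 a2 b2 a b m n hCD ρ hρ hρR hSw
  by_contra hcon
  push Not at hcon
  have hR := hCD.oc.pos
  have hDM := hCD.dmm
  have hSw2 := hSw
  obtain ⟨hSΩ, -, hRI⟩ := hSw2
  obtain ⟨hV, hVeq, hVr⟩ := hEV Ω ν R t1 G a1 b1 a2 b2 a b m n hCD ρ hρ.le hρR hSw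
  obtain ⟨K, hK⟩ := hCD.bd
  have hfr : ∀ q ∈ Circ R, q ∈ frontier Ω := fun q hq => ((hKF Ω R hCD.op hCD.oc).2 q hq).1
  have hR0 : ((R, 0) : ℝ × ℝ) ∈ Circ R := by
    show R ^ 2 + 0 ^ 2 = R ^ 2
    ring
  have hbz : b = fun z => b1 z - b2 z := hCD.hb
  have hE := hEE ν ρ R t1 0 (2 * K) (fun z : ℝ × ℝ => b (z.1, (z.2, 0))) hCD.nu hρ hρR le_rfl hV
    (by
      intro z
      have h1 := (hK (z.1, (z.2, 0))).2.1
      have h2 := (hK (z.1, (z.2, 0))).2.2.2.1
      show |b (z.1, (z.2, 0))| ≤ 2 * K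
      rw [hbz]
      have h3 := abs_sub (b1 (z.1, (z.2, 0))) (b2 (z.1, (z.2, 0)))
      linarith)
    (fun t ht r h1 h2 => hVeq t ht r h1 h2)
    (by
      intro t _
      exact (hDM.bc t (R, 0) (hfr _ hR0)).2.1)
    (by
      intro t ht
      have h1 := hVr t ρ
      have h2 := hcon t ht
      show -(b (t, (ρ, 0)) * py (fun z : ℝ × ℝ => b (z.1, (z.2, 0))) (t, ρ)) ≤ 0
      rw [h1]
      linarith)
  -- `b` vanishes on the segment
  have hb0 : ∀ t < t1, ∀ r, ρ < r → r < R → b (t, (r, 0)) = 0 := by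
    intro t ht r h1 h2
    by_contra hne
    have h3 := hE t ht
    have hcont : Continuous (fun r : ℝ => b (t, (r, 0)) ^ 2 * r) := by
      have : Continuous b := hDM.cb.continuous
      fun_prop
    have h4 : 0 < ∫ r in ρ..R, b (t, (r, 0)) ^ 2 * r := by
      apply intervalIntegral.integral_pos hρR hcont.continuousOn
      · intro x hx
        have : 0 < x := lt_trans hρ hx.1
        positivity
      · refine ⟨r, ⟨h1.le, h2.le⟩, ?_⟩
        have : 0 < r := lt_trans hρ h1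
        positivity
    have h5 : (∫ r in ρ..R, (fun z : ℝ × ℝ => b (z.1, (z.2, 0))) (t, r) ^ 2 * r) =
        ∫ r in ρ..R, b (t, (r, 0)) ^ 2 * r := rfl
    rw [h5] at h3
    nlinarith
  have hring : ∀ r, ρ < r → r < R → ((r, 0) : ℝ × ℝ) ∈ Ring ρ R := by
    intro r h1 h2
    have h0 : 0 < r := lt_trans hρ h1
    refine ⟨?_, ?_⟩
    · show ρ ^ 2 < r ^ 2 + 0 ^ 2
      nlinarith
    · show r ^ 2 + 0 ^ 2 < R ^ 2
      nlinarith
  -- `a` vanishes on the segment
  have ha0 : ∀ t < t1, ∀ r, ρ < r → r < R → a (t, (r, 0)) = 0 := by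
    intro t ht r h1 h2
    have h3 := hRR R ρ t a b hρ.le hρR (hDM.ca.of_le (by norm_num)) (hDM.cb.of_le (by norm_num))
      (by
        intro α s hs q hq
        rw [mem_singleton_iff] at hs
        subst hs
        exact hRI α s ht q hq)
      (fun q hq => hDM.da t q (hSΩ hq))
      (fun q hq => ⟨(hDM.bc t q (hfr q hq)).1, (hDM.bc t q (hfr q hq)).2.1⟩)
      (r, 0) (hring r h1 h2)
    exact (h3.2.2 r h1 h2).1
  -- the difference vanishes on the annulus
  have hz : ∀ t < t1, ∀ q ∈ Ring ρ R, a (t, q) = 0 ∧ b (t, q) = 0 := by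
    intro t ht q hq
    obtain ⟨θ, hθ⟩ := (hRX 0 q).2.2.2
    set r : ℝ := Real.sqrt (q.1 ^ 2 + q.2 ^ 2) with hr
    have hr2 : r ^ 2 = q.1 ^ 2 + q.2 ^ 2 := Real.sq_sqrt (by positivity)
    have hr0 : 0 ≤ r := Real.sqrt_nonneg _
    have h1 : ρ < r := by
      have := hq.1
      rw [← hr2] at this
      exact lt_of_pow_lt_pow_left₀ 2 hr0 this
    have h2 : r < R := by
      have := hq.2
      rw [← hr2] at this
      exact lt_of_pow_lt_pow_left₀ 2 hR.le this
    have h3 : rot (-θ) q = (r, 0) := by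
      rw [hθ]
      exact (hRX θ (r, 0)).2.2.1
    have h4 := hRI θ t ht q hq
    unfold rfa rfb at h4
    simp only [h3, ha0 t ht r h1 h2, hb0 t ht r h1 h2, mul_zero, sub_zero, add_zero] at h4
    exact ⟨h4.1.symm, h4.2.symm⟩
  -- unique continuation
  obtain ⟨K', hK'⟩ := hDM.bd
  have hK0 : 0 ≤ K' := (abs_nonneg _).trans (hK' (0, 0)).1
  have hKRr := hKR ρ R hρ.le hρR
  have hfin := hYI Ω (t1 - 1) t1 ν (2 * K') a b hCD.op hCD.con.isPreconnected hCD.nu
    (hDM.ca.of_le (by norm_num)).contDiffOn (hDM.cb.of_le (by norm_num)).contDiffOn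
    (by
      intro t _ q hq
      have e1 := hDM.ea t q hq
      have e2 := hDM.eb t q hq
      obtain ⟨k1, k2, k3, k4, k5, k6⟩ := hK' (t, q)
      have f1 : heat ν a (t, q) = -(m (t, q) * dx a (t, q) + n (t, q) * dy a (t, q)
          + a (t, q) * dx m (t, q) + b (t, q) * dy m (t, q)) := by
        unfold heat; linarith
      have f2 : heat ν b (t, q) = -(m (t, q) * dx b (t, q) + n (t, q) * dy b (t, q)
          + a (t, q) * dx n (t, q) + b (t, q) * dy n (t, q)) := by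
        unfold heat; linarith
      have hmul : ∀ x y : ℝ, |x| ≤ K' → |x * y| ≤ K' * |y| := by
        intro x y hx
        rw [abs_mul]
        exact mul_le_mul_of_nonneg_right hx (abs_nonneg _)
      have hmul' : ∀ x y : ℝ, |x| ≤ K' → |y * x| ≤ K' * |y| := by
        intro x y hx
        rw [mul_comm]
        exact hmul x y hx
      have h4 : ∀ x1 x2 x3 x4 : ℝ, |-(x1 + x2 + x3 + x4)| ≤ |x1| + |x2| + |x3| + |x4| := by
        intro x1 x2 x3 x4
        rw [abs_neg]
        calc |x1 + x2 + x3 + x4| ≤ |x1 + x2 + x3| + |x4| := abs_add_le _ _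
          _ ≤ (|x1 + x2| + |x3|) + |x4| := by gcongr; exact abs_add_le _ _
          _ ≤ _ := by gcongr; exact abs_add_le _ _
      rw [f1, f2]
      have g1 := h4 (m (t, q) * dx a (t, q)) (n (t, q) * dy a (t, q)) (a (t, q) * dx m (t, q))
        (b (t, q) * dy m (t, q))
      have g2 := h4 (m (t, q) * dx b (t, q)) (n (t, q) * dy b (t, q)) (a (t, q) * dx n (t, q))
        (b (t, q) * dy n (t, q))
      have p1 := hmul _ (dx a (t, q)) k1
      have p2 := hmul _ (dy a (t, q)) k2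
      have p3 := hmul' _ (a (t, q)) k3
      have p4 := hmul' _ (b (t, q)) k4
      have p5 := hmul _ (dx b (t, q)) k1
      have p6 := hmul _ (dy b (t, q)) k2
      have p7 := hmul' _ (a (t, q)) k5
      have p8 := hmul' _ (b (t, q)) k6
      have n1 := mul_nonneg hK0 (abs_nonneg (dx a (t, q)))
      have n2 := mul_nonneg hK0 (abs_nonneg (dy a (t, q)))
      have n3 := mul_nonneg hK0 (abs_nonneg (dx b (t, q)))
      have n4 := mul_nonneg hK0 (abs_nonneg (dy b (t, q)))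
      linarith)
    ⟨Ring ρ R, hKRr.2.2.1, hKRr.2.2.2.2, hSΩ, fun t ht q hq => hz t ht.2 q hq⟩
  obtain ⟨q, hq, hne⟩ := hCD.nz (t1 - 1 / 2) (by linarith)
  exact hne (hfin (t1 - 1 / 2) ⟨by linarith, by linarith⟩ q hq)

end NS
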