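import Pool.Agent.helper29.NS.SpecC

set_option autoImplicit false

namespace NS

open MeasureTheory Filter Topology Set

/-- the rotation of space-time as a continuous linear map -/
noncomputable def RO_L (α : ℝ) : ℝ × ℝ × ℝ →L[ℝ] ℝ × ℝ × ℝ :=
  LinearMap.toContinuousLinearMap
    { toFun := fun z => (z.1, rot (-α) z.2)
      map_add' := by
        intro z w
        ext
        · simp
        · simp only [rot, Prod.snd_add, Prod.fst_add]; ring
        · simp only [rot, Prod.snd_add, Prod.fst_add]; ring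
      map_smul' := by
        intro r z
        ext
        · simp
        · simp only [rot, Prod.smul_snd, Prod.smul_fst, smul_eq_mul, RingHom.id_apply]; ring
        · simp only [rot, Prod.smul_snd, Prod.smul_fst, smul_eq_mul, RingHom.id_apply]; ring }

theorem RO_L_apply (α : ℝ) (z : ℝ × ℝ × ℝ) : RO_L α z = (z.1, rot (-α) z.2) := rfl

theorem RO_rs (α : ℝ) (f : ℝ × ℝ × ℝ → ℝ) : rs α f = fun z => f (RO_L α z) := rfl

theorem RO_fd (α : ℝ) (f : ℝ × ℝ × ℝ → ℝ) (hf : Differentiable ℝ f) (z v : ℝ × ℝ × ℝ) :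
    fderiv ℝ (rs α f) z v = fderiv ℝ f (RO_L α z) (RO_L α v) := by
  have h1 : HasFDerivAt (rs α f) ((fderiv ℝ f (RO_L α z)).comp (RO_L α)) z :=
    (hf (RO_L α z)).hasFDerivAt.comp z (RO_L α).hasFDerivAt
  rw [h1.fderiv]
  rfl

theorem RO_L1 (α : ℝ) : RO_L α (1, 0, 0) = (1, 0, 0) := by
  rw [RO_L_apply]; simp [rot]

theorem RO_L2 (α : ℝ) : RO_L α (0, 1, 0) = (0, Real.cos α, -Real.sin α) := by
  rw [RO_L_apply]; simp [rot]

theorem RO_L3 (α : ℝ) : RO_L α (0, 0, 1) = (0, Real.sin α, Real.cos α) := by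
  rw [RO_L_apply]; simp [rot]

theorem RO_lin (T : ℝ × ℝ × ℝ →L[ℝ] ℝ) (u v : ℝ) :
    T (0, u, v) = u * T (0, 1, 0) + v * T (0, 0, 1) := by
  have : ((0, u, v) : ℝ × ℝ × ℝ) = u • ((0, 1, 0) : ℝ × ℝ × ℝ) + v • ((0, 0, 1) : ℝ × ℝ × ℝ) := by
    ext <;> simp
  rw [this, map_add, map_smul, map_smul]
  rfl

theorem RO_dt (α : ℝ) (f : ℝ × ℝ × ℝ → ℝ) (hf : Differentiable ℝ f) (z : ℝ × ℝ × ℝ) :
    dt (rs α f) z = rs α (dt f) z := by
  unfold dt
  rw [RO_fd α f hf, RO_L1]
  rfl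

theorem RO_dx (α : ℝ) (f : ℝ × ℝ × ℝ → ℝ) (hf : Differentiable ℝ f) (z : ℝ × ℝ × ℝ) :
    dx (rs α f) z = Real.cos α * rs α (dx f) z - Real.sin α * rs α (dy f) z := by
  have h : dx (rs α f) z = fderiv ℝ f (RO_L α z) (0, Real.cos α, -Real.sin α) := by
    unfold dx
    rw [RO_fd α f hf, RO_L2]
  rw [h, RO_lin]
  show Real.cos α * dx f (RO_L α z) + -Real.sin α * dy f (RO_L α z) =
    Real.cos α * dx f (RO_L α z) - Real.sin α * dy f (RO_L α z)
  ring

theorem RO_dy (α : ℝ) (f : ℝ × ℝ × ℝ → ℝ) (hf : Differentiable ℝ f) (z : ℝ × ℝ × ℝ) :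
    dy (rs α f) z = Real.sin α * rs α (dx f) z + Real.cos α * rs α (dy f) z := by
  have h : dy (rs α f) z = fderiv ℝ f (RO_L α z) (0, Real.sin α, Real.cos α) := by
    unfold dy
    rw [RO_fd α f hf, RO_L3]
  rw [h, RO_lin]
  rfl

/-- derivatives of linear combinations -/
theorem RO_comb (u v : ℝ) (F G : ℝ × ℝ × ℝ → ℝ) (hF : Differentiable ℝ F)
    (hG : Differentiable ℝ G) (z w : ℝ × ℝ × ℝ) :
    fderiv ℝ (fun z => u * F z + v * G z) z w = u * fderiv ℝ F z w + v * fderiv ℝ G z w := by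
  have h1 : HasFDerivAt (fun z => u * F z + v * G z) (u • fderiv ℝ F z + v • fderiv ℝ G z) z :=
    ((hF z).hasFDerivAt.const_mul u).add ((hG z).hasFDerivAt.const_mul v)
  rw [h1.fderiv]
  simp

theorem RO_dtc (u v : ℝ) (F G : ℝ × ℝ × ℝ → ℝ) (hF : Differentiable ℝ F)
    (hG : Differentiable ℝ G) :
    dt (fun z => u * F z + v * G z) = fun z => u * dt F z + v * dt G z :=
  funext fun z => RO_comb u v F G hF hG z _

theorem RO_dxc (u v : ℝ) (F G : ℝ × ℝ × ℝ → ℝ) (hF : Differentiable ℝ F)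
    (hG : Differentiable ℝ G) :
    dx (fun z => u * F z + v * G z) = fun z => u * dx F z + v * dx G z :=
  funext fun z => RO_comb u v F G hF hG z _

theorem RO_dyc (u v : ℝ) (F G : ℝ × ℝ × ℝ → ℝ) (hF : Differentiable ℝ F)
    (hG : Differentiable ℝ G) :
    dy (fun z => u * F z + v * G z) = fun z => u * dy F z + v * dy G z :=
  funext fun z => RO_comb u v F G hF hG z _

theorem RO_cdx (f : ℝ × ℝ × ℝ → ℝ) (hf : ContDiff ℝ 2 f) :
    Differentiable ℝ (dx f) ∧ Differentiable ℝ (dy f) := by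
  have h1 : ContDiff ℝ 1 (fderiv ℝ f) := hf.fderiv_right (m := 1) (by norm_num)
  have h2 : Differentiable ℝ (fderiv ℝ f) := h1.differentiable (by norm_num)
  exact ⟨h2.clm_apply (differentiable_const _), h2.clm_apply (differentiable_const _)⟩

theorem RO_lapc (u v : ℝ) (F G : ℝ × ℝ × ℝ → ℝ) (hF : ContDiff ℝ 2 F) (hG : ContDiff ℝ 2 G)
    (z : ℝ × ℝ × ℝ) :
    lap (fun z => u * F z + v * G z) z = u * lap F z + v * lap G z := by
  have hF1 : Differentiable ℝ F := hF.differentiable (by norm_num)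
  have hG1 : Differentiable ℝ G := hG.differentiable (by norm_num)
  unfold lap
  rw [RO_dxc u v F G hF1 hG1, RO_dyc u v F G hF1 hG1,
    RO_dxc u v _ _ (RO_cdx F hF).1 (RO_cdx G hG).1, RO_dyc u v _ _ (RO_cdx F hF).2 (RO_cdx G hG).2]
  ring

theorem RO_rscd {k : WithTop ℕ∞} (α : ℝ) (f : ℝ × ℝ × ℝ → ℝ) (hf : ContDiff ℝ k f) :
    ContDiff ℝ k (rs α f) := hf.comp (RO_L α).contDiff

theorem RO_rsd (α : ℝ) (f : ℝ × ℝ × ℝ → ℝ) (hf : Differentiable ℝ f) :
    Differentiable ℝ (rs α f) := hf.comp (RO_L α).differentiable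

theorem RO_lap (α : ℝ) (f : ℝ × ℝ × ℝ → ℝ) (hf : ContDiff ℝ 2 f) (z : ℝ × ℝ × ℝ) :
    lap (rs α f) z = rs α (lap f) z := by
  have hf1 : Differentiable ℝ f := hf.differentiable (by norm_num)
  obtain ⟨hx, hy⟩ := RO_cdx f hf
  have e1 : dx (rs α f) = fun z => Real.cos α * rs α (dx f) z + (-Real.sin α) * rs α (dy f) z := by
    funext z; rw [RO_dx α f hf1]; ring
  have e2 : dy (rs α f) = fun z => Real.sin α * rs α (dx f) z + Real.cos α * rs α (dy f) z := by
    funext z; rw [RO_dy α f hf1]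
  unfold lap
  rw [e1, e2, RO_dxc _ _ _ _ (RO_rsd α _ hx) (RO_rsd α _ hy),
    RO_dyc _ _ _ _ (RO_rsd α _ hx) (RO_rsd α _ hy)]
  simp only
  rw [RO_dx α _ hx, RO_dx α _ hy, RO_dy α _ hx, RO_dy α _ hy]
  have hcs := Real.sin_sq_add_cos_sq α
  have e3 : rs α (fun z => dx (dx f) z + dy (dy f) z) z = rs α (dx (dx f)) z + rs α (dy (dy f)) z :=
    rfl
  rw [e3]
  linear_combination (rs α (dx (dx f)) z + rs α (dy (dy f)) z) * hcs

theorem RO : RO_stmt := by
  intro α f a b hf ha hb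
  have hf1 : Differentiable ℝ f := hf.differentiable (by norm_num)
  have ha1 : Differentiable ℝ a := ha.differentiable (by norm_num)
  have hb1 : Differentiable ℝ b := hb.differentiable (by norm_num)
  have ea : rfa α a b = fun z => Real.cos α * rs α a z + (-Real.sin α) * rs α b z := by
    funext z; unfold rfa rs; ring
  have eb : rfb α a b = fun z => Real.sin α * rs α a z + Real.cos α * rs α b z := rfl
  have cA := RO_rscd α a ha
  have cB := RO_rscd α b hb
  have dA := RO_rsd α a ha1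
  have dB := RO_rsd α b hb1
  have hcs := Real.sin_sq_add_cos_sq α
  refine ⟨RO_rscd α f hf, ?_, ?_, ?_⟩
  · rw [ea]; exact (contDiff_const.mul cA).add (contDiff_const.mul cB)
  · rw [eb]; exact (contDiff_const.mul cA).add (contDiff_const.mul cB)
  · intro z
    refine ⟨RO_dt α f hf1 z, RO_dx α f hf1 z, RO_dy α f hf1 z, RO_lap α f hf z, ?_, ?_, ?_, ?_, ?_,
      ?_, ?_, ?_⟩
    · rw [ea, RO_lapc _ _ _ _ cA cB, RO_lap α a ha, RO_lap α b hb]
      unfold rfa rs; ring
    · rw [eb, RO_lapc _ _ _ _ cA cB, RO_lap α a ha, RO_lap α b hb]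
      unfold rfb rs; ring
    · rw [ea, RO_dtc _ _ _ _ dA dB]
      simp only
      rw [RO_dt α a ha1, RO_dt α b hb1]
      unfold rfa rs; ring
    · rw [eb, RO_dtc _ _ _ _ dA dB]
      simp only
      rw [RO_dt α a ha1, RO_dt α b hb1]
      unfold rfb rs; ring
    · rw [ea, eb, RO_dxc _ _ _ _ dA dB, RO_dyc _ _ _ _ dA dB]
      simp only
      rw [RO_dx α a ha1, RO_dx α b hb1, RO_dy α a ha1, RO_dy α b hb1]
      have e3 : rs α (fun z => dx a z + dy b z) z = rs α (dx a) z + rs α (dy b) z := rfl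
      rw [e3]
      linear_combination (rs α (dx a) z + rs α (dy b) z) * hcs
    · unfold vort
      rw [ea, eb, RO_dxc _ _ _ _ dA dB, RO_dyc _ _ _ _ dA dB]
      simp only
      rw [RO_dx α a ha1, RO_dx α b hb1, RO_dy α a ha1, RO_dy α b hb1]
      have e3 : rs α (fun z => dx b z - dy a z) z = rs α (dx b) z - rs α (dy a) z := rfl
      rw [e3]
      linear_combination (rs α (dx b) z - rs α (dy a) z) * hcs
    · rw [RO_dx α f hf1, RO_dy α f hf1, ea, eb]
      have e3 : rs α (fun z => a z * dx f z + b z * dy f z) z =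
        rs α a z * rs α (dx f) z + rs α b z * rs α (dy f) z := rfl
      rw [e3]
      simp only
      linear_combination (rs α a z * rs α (dx f) z + rs α b z * rs α (dy f) z) * hcs
    · unfold rfa
      have h1 := Real.abs_cos_le_one α
      have h2 := Real.abs_sin_le_one α
      calc |Real.cos α * a (z.1, rot (-α) z.2) - Real.sin α * b (z.1, rot (-α) z.2)|
          ≤ |Real.cos α * a (z.1, rot (-α) z.2)| + |Real.sin α * b (z.1, rot (-α) z.2)| :=
            abs_sub _ _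
        _ = |Real.cos α| * |a (z.1, rot (-α) z.2)| + |Real.sin α| * |b (z.1, rot (-α) z.2)| := by
            rw [abs_mul, abs_mul]
        _ ≤ 1 * |a (z.1, rot (-α) z.2)| + 1 * |b (z.1, rot (-α) z.2)| :=
            add_le_add (mul_le_mul_of_nonneg_right h1 (abs_nonneg _))
              (mul_le_mul_of_nonneg_right h2 (abs_nonneg _))
        _ = _ := by ring

end NS
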