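import Pool.Agent.helper29.NS.SpecC

set_option autoImplicit false

namespace NS

open MeasureTheory Filter Topology Set

theorem RX_inv (α : ℝ) (q : ℝ × ℝ) : rot α (rot (-α) q) = q := by
  have hcs := Real.sin_sq_add_cos_sq α
  unfold rot
  rw [Real.cos_neg, Real.sin_neg]
  ext
  · simp only
    linear_combination q.1 * hcs
  · simp only
    linear_combination q.2 * hcs

theorem RX : RX_stmt := by
  intro α q
  have hcs := Real.sin_sq_add_cos_sq α
  refine ⟨?_, RX_inv α q, ?_, ?_⟩
  · unfold rot
    simp only
    linear_combination (q.1 ^ 2 + q.2 ^ 2) * hcs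
  · have := RX_inv (-α) q
    rwa [neg_neg] at this
  · refine ⟨Complex.arg (q.1 + q.2 * Complex.I), ?_⟩
    have h1 := Complex.norm_mul_cos_arg ((q.1 : ℂ) + q.2 * Complex.I)
    have h2 := Complex.norm_mul_sin_arg ((q.1 : ℂ) + q.2 * Complex.I)
    rw [Complex.norm_add_mul_I] at h1 h2
    simp only [Complex.add_re, Complex.ofReal_re, Complex.mul_re, Complex.I_re, mul_zero,
      Complex.ofReal_im, Complex.I_im, mul_one, sub_self, add_zero, Complex.add_im,
      Complex.mul_im, zero_add] at h1 h2
    unfold rot
    ext
    · simp only [mul_zero, sub_zero]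
      linarith
    · simp only [mul_zero, add_zero]
      linarith

end NS
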